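import Pool.Agent.N685.FD.DG

/-!
# The trajectories of the map `5n+1` stay high for `A log |n|` steps

Joint work of the seats helper136, helper685, 692, 650, 434, 232, 306, 170, 284, 263, 771, 163, 368,
286, 49, 507, 693, 756, 572, 878, 488, 769, 954 and 99.
-/

set_option autoImplicit false

namespace Pool.Agent.Results.MP_81cdd9_nt.HighForLogTime

open Filter Topology

/-- The map `T₅`: `n / 2` for even `n` and `(5 n + 1) / 2` for odd `n`. -/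
def T5 (n : ℤ) : ℤ := if n % 2 = 0 then n / 2 else (5 * n + 1) / 2

/-- The integers `n` of the sign of `s` with `|n| ≤ x` such that `|T₅^k (n)| ≤ |n| ^ (1 - δ)` for some
`k ≤ A log |n|`. -/
def Low (s : ℤ) (A δ x : ℝ) : Set ℤ :=
  {n : ℤ | 0 < s * n ∧ |(n : ℝ)| ≤ x ∧ ∃ k : ℕ, (k : ℝ) ≤ A * Real.log |(n : ℝ)| ∧
    |((T5^[k] n : ℤ) : ℝ)| ≤ |(n : ℝ)| ^ (1 - δ)}

/-- The integers `n` with `|n| ≤ N` such that `|T₅^k (n)| > |n| ^ (1 - δ)` for all `k ≤ A log |n|`. -/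
def High (A δ : ℝ) (N : ℕ) : Set ℤ :=
  {n : ℤ | |n| ≤ (N : ℤ) ∧ ∀ k : ℕ, (k : ℝ) ≤ A * Real.log |(n : ℝ)| →
    |(n : ℝ)| ^ (1 - δ) < |((T5^[k] n : ℤ) : ℝ)|}

open Pool.Agent.N685.FD Pool.Agent.N685.FD.UN Pool.Agent.N685.FD.DG Pool.Agent.N685.FD.Five

theorem T5_eq : T5 = T 5 1 := by
  funext n
  unfold T5 T
  norm_num

theorem adm : Adm 5 1 := by
  unfold Adm
  norm_num

theorem log_nonneg_of {n : ℤ} : 0 ≤ Real.log |(n : ℝ)| := by
  rcases eq_or_ne n 0 with rfl | hn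
  · simp
  · apply Real.log_nonneg
    rw [← Int.cast_abs]
    exact_mod_cast Int.one_le_abs hn

theorem low_sub {s : ℤ} {A δ x : ℝ} (hA : 0 < A) (hδ : 0 < δ) (hδ1 : δ ≤ 1) :
    Low s A δ x ⊆ ES 5 1 s (A / δ) δ x := by
  rintro n ⟨h1, h2, k, h3, h4⟩
  rw [T5_eq] at h4
  refine ⟨h1, h2, k, h4, ?_⟩
  have hn : n ≠ 0 := by
    rintro rfl
    simp at h1
  have hn1 : 0 < |(n : ℝ)| := abs_pos.2 (by exact_mod_cast hn)
  have hL : 0 ≤ Real.log |(n : ℝ)| := log_nonneg_of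
  have key : δ * Real.log |(n : ℝ)| ≤
      Real.log |(n : ℝ)| - Real.log |(((T 5 1)^[k] n : ℤ) : ℝ)| := by
    rcases eq_or_ne (((T 5 1)^[k] n : ℤ) : ℝ) 0 with h0 | h0
    · rw [h0, abs_zero, Real.log_zero, sub_zero]
      exact mul_le_of_le_one_left hL hδ1
    · have h5 := Real.log_le_log (abs_pos.2 h0) h4
      rw [Real.log_rpow hn1] at h5
      linarith
  calc (k : ℝ) ≤ A * Real.log |(n : ℝ)| := h3
    _ = A / δ * (δ * Real.log |(n : ℝ)|) := by field_simp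
    _ ≤ _ := mul_le_mul_of_nonneg_left key (by positivity)

theorem sub_low {s : ℤ} {A κ δ x : ℝ} (hκ : 0 < κ) (hA : κ ≤ A) :
    ES 5 1 s κ δ x ⊆ Low s A δ x := by
  rintro n ⟨h1, h2, k, h3, h4⟩
  refine ⟨h1, h2, k, ?_, by rw [T5_eq]; exact h3⟩
  have hL : 0 ≤ Real.log |(n : ℝ)| := log_nonneg_of
  have hL' : 0 ≤ Real.log |(((T 5 1)^[k] n : ℤ) : ℝ)| := log_nonneg_of
  calc (k : ℝ) ≤ κ * (Real.log |(n : ℝ)| - Real.log |(((T 5 1)^[k] n : ℤ) : ℝ)|) := h4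
    _ ≤ κ * Real.log |(n : ℝ)| := mul_le_mul_of_nonneg_left (by linarith) hκ.le
    _ ≤ A * Real.log |(n : ℝ)| := mul_le_mul_of_nonneg_right hA hL

theorem low_fin {s : ℤ} {A δ x : ℝ} : (Low s A δ x).Finite := fin_of (x := x) fun _ hn => hn.2.1

/-- the exact exponent -/
theorem count {η : ℝ} (h : IsEta η) {s : ℤ} (hs : Sg s) {A : ℝ} (hA : kap η ≤ A) {δ : ℝ}
    (hδ : 0 < δ) (hδ1 : δ ≤ 1) {ε : ℝ} (hε : 0 < ε) : ∃ X₀ : ℝ, 1 ≤ X₀ ∧ ∀ x : ℝ, X₀ ≤ x →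
    x ^ (1 - δ * (1 - η) - ε) ≤ ((Low s A δ x).ncard : ℝ) ∧
      ((Low s A δ x).ncard : ℝ) ≤ x ^ (1 - δ * (1 - η) + ε) := by
  have hκ : 0 < kap η := kap_pos h
  have hA0 : 0 < A := hκ.trans_le hA
  have hA1 : kap η ≤ A / δ := hA.trans (le_div_self hA0.le hδ hδ1)
  obtain ⟨X₁, hX₁, g1⟩ := exc5 adm hs h (le_refl (kap η)) hδ hδ1 hε
  obtain ⟨X₂, hX₂, g2⟩ := exc5 adm hs h hA1 hδ hδ1 hε
  refine ⟨max X₁ X₂, hX₁.trans (le_max_left _ _), fun x hx => ⟨?_, ?_⟩⟩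
  · refine (g1 x ((le_max_left _ _).trans hx)).1.trans ?_
    exact_mod_cast Set.ncard_le_ncard (sub_low hκ hA) low_fin
  · refine le_trans ?_ (g2 x ((le_max_right _ _).trans hx)).2
    exact_mod_cast Set.ncard_le_ncard (low_sub hA0 hδ hδ1) (fin_of (x := x) fun _ hn => hn.2.1)

theorem cover {A A' δ δ' : ℝ} {N : ℕ} (hA : A ≤ A') (hδ : δ' ≤ δ) :
    {n : ℤ | |n| ≤ (N : ℤ)} \ High A δ N ⊆ Low 1 A' δ' N ∪ Low (-1) A' δ' N ∪ {0} := by
  rintro n ⟨h1, h2⟩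
  rcases eq_or_ne n 0 with h0 | h0
  · exact Or.inr h0
  left
  have h3 : ¬ ∀ k : ℕ, (k : ℝ) ≤ A * Real.log |(n : ℝ)| →
    |(n : ℝ)| ^ (1 - δ) < |((T5^[k] n : ℤ) : ℝ)| := fun h => h2 ⟨h1, h⟩
  push Not at h3
  obtain ⟨k, h4, h5⟩ := h3
  have h6 : |(n : ℝ)| ≤ (N : ℝ) := by
    rw [← Int.cast_abs]
    have h7 : |n| ≤ (N : ℤ) := h1
    exact_mod_cast h7
  have h7 : (k : ℝ) ≤ A' * Real.log |(n : ℝ)| :=
    h4.trans (mul_le_mul_of_nonneg_right hA log_nonneg_of)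
  have h8 : (1 : ℝ) ≤ |(n : ℝ)| := by
    rw [← Int.cast_abs]
    exact_mod_cast Int.one_le_abs h0
  have h9 : |((T5^[k] n : ℤ) : ℝ)| ≤ |(n : ℝ)| ^ (1 - δ') :=
    h5.trans (Real.rpow_le_rpow_of_exponent_le h8 (by linarith))
  rcases lt_or_gt_of_ne h0 with h10 | h10
  · right
    exact ⟨by omega, h6, k, h7, h9⟩
  · left
    exact ⟨by omega, h6, k, h7, h9⟩

theorem abs_icc {N : ℕ} : {n : ℤ | |n| ≤ (N : ℤ)} = Set.Icc (-(N : ℤ)) N := by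
  ext n
  rw [Set.mem_Icc]
  exact abs_le (a := n) (b := (N : ℤ))

theorem density {η : ℝ} (h : IsEta η) {A δ : ℝ} (hδ : 0 < δ) :
    Tendsto (fun N : ℕ => ((High A δ N).ncard : ℝ) / (2 * N + 1)) atTop (𝓝 1) := by
  set δ' := min δ 1 with hδ'
  have hd0 : 0 < δ' := lt_min hδ one_pos
  have hd1 : δ' ≤ 1 := min_le_right _ _
  set A' := max A (kap η) with hA'
  have hη : η < 1 := by linarith [h.2.1]
  set ε := δ' * (1 - η) / 2 with hε
  have hε0 : 0 < ε := by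
    have : 0 < 1 - η := by linarith
    positivity
  obtain ⟨X₁, hX₁, g1⟩ := count h (s := 1) (Or.inl rfl) (le_max_right A (kap η)) hd0 hd1 hε0
  obtain ⟨X₂, hX₂, g2⟩ := count h (s := -1) (Or.inr rfl) (le_max_right A (kap η)) hd0 hd1 hε0
  have hexp : 1 - δ' * (1 - η) + ε = 1 - ε := by rw [hε]; ring
  rw [hexp] at g1 g2
  -- the lower bound
  have hlow : ∀ᶠ N : ℕ in atTop, 1 - ((N : ℝ) ^ (-ε) + 1 / (N : ℝ)) ≤
      ((High A δ N).ncard : ℝ) / (2 * N + 1) := by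
    filter_upwards [eventually_ge_atTop ⌈max X₁ X₂⌉₊, eventually_ge_atTop 1] with N hN hN1
    have hN0 : (1 : ℝ) ≤ N := by exact_mod_cast hN1
    have hN2 : max X₁ X₂ ≤ (N : ℝ) := Nat.ceil_le.1 hN
    have a1 := (g1 N ((le_max_left _ _).trans hN2)).2
    have a2 := (g2 N ((le_max_right _ _).trans hN2)).2
    have hsub : High A δ N ⊆ {n : ℤ | |n| ≤ (N : ℤ)} := fun n hn => hn.1
    have hfin : ({n : ℤ | |n| ≤ (N : ℤ)} : Set ℤ).Finite := by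
      rw [abs_icc]
      exact Set.finite_Icc _ _
    have hcard : (({n : ℤ | |n| ≤ (N : ℤ)} : Set ℤ).ncard : ℝ) = 2 * N + 1 := by
      rw [abs_icc, ← Finset.coe_Icc, Set.ncard_coe_finset, Int.card_Icc]
      have : ((N : ℤ) + 1 - -(N : ℤ)).toNat = 2 * N + 1 := by omega
      rw [this]
      push_cast
      ring
    have b1 := Set.ncard_sdiff_add_ncard_of_subset hsub hfin
    have b2 : (({n : ℤ | |n| ≤ (N : ℤ)} \ High A δ N).ncard : ℝ) ≤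
        (Low 1 A' δ' N).ncard + (Low (-1) A' δ' N).ncard + 1 := by
      have c1 := Set.ncard_le_ncard (cover (N := N) (le_max_left A (kap η)) (min_le_left δ 1))
        ((low_fin.union low_fin).union (Set.finite_singleton 0))
      have c2 := Set.ncard_union_le (Low 1 A' δ' N ∪ Low (-1) A' δ' N) {0}
      have c3 := Set.ncard_union_le (Low 1 A' δ' N) (Low (-1) A' δ' N)
      rw [Set.ncard_singleton] at c2
      have c4 := c1.trans (c2.trans (Nat.add_le_add_right c3 1))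
      exact_mod_cast c4
    have b3 : (({n : ℤ | |n| ≤ (N : ℤ)} \ High A δ N).ncard : ℝ) + ((High A δ N).ncard : ℝ) =
        2 * N + 1 := by
      rw [← hcard]
      exact_mod_cast b1
    have b4 : (N : ℝ) ^ (1 - ε) = N * (N : ℝ) ^ (-ε) := by
      rw [sub_eq_add_neg, Real.rpow_add (by linarith), Real.rpow_one]
    rw [le_div_iff₀ (by positivity)]
    have b5 : 0 ≤ (N : ℝ) ^ (-ε) := by positivity
    have b6 : 1 / (N : ℝ) * (2 * N + 1) = 2 + 1 / N := by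
      field_simp
    have b7 : 0 ≤ 1 / (N : ℝ) := by positivity
    have b8 : (1 - ((N : ℝ) ^ (-ε) + 1 / (N : ℝ))) * (2 * N + 1) =
        2 * N + 1 - (2 * (N * (N : ℝ) ^ (-ε)) + (N : ℝ) ^ (-ε)) - 1 / (N : ℝ) * (2 * N + 1) := by
      ring
    rw [b8, b6]
    rw [b4] at a1 a2
    linarith
  have hup : ∀ N : ℕ, ((High A δ N).ncard : ℝ) / (2 * N + 1) ≤ 1 := by
    intro N
    have hsub : High A δ N ⊆ {n : ℤ | |n| ≤ (N : ℤ)} := fun n hn => hn.1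
    rw [abs_icc, ← Finset.coe_Icc] at hsub
    have b1 := Set.ncard_le_ncard hsub (Finset.finite_toSet _)
    rw [Set.ncard_coe_finset, Int.card_Icc] at b1
    have : ((N : ℤ) + 1 - -(N : ℤ)).toNat = 2 * N + 1 := by omega
    rw [this] at b1
    rw [div_le_one (by positivity)]
    exact_mod_cast b1
  have hlim : Tendsto (fun N : ℕ => 1 - ((N : ℝ) ^ (-ε) + 1 / (N : ℝ))) atTop (𝓝 1) := by
    have l1 : Tendsto (fun N : ℕ => (N : ℝ) ^ (-ε)) atTop (𝓝 0) :=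
      (tendsto_rpow_neg_atTop hε0).comp tendsto_natCast_atTop_atTop
    have l2 : Tendsto (fun N : ℕ => 1 / (N : ℝ)) atTop (𝓝 0) := tendsto_one_div_atTop_nhds_zero_nat
    have l3 := (tendsto_const_nhds (x := (1 : ℝ))).sub (l1.add l2)
    simpa using l3
  exact tendsto_of_tendsto_of_tendsto_of_le_of_le' hlim tendsto_const_nhds hlow
    (Eventually.of_forall hup)

/-- **The trajectories of `5n+1` stay high for `A log |n|` steps.** Let `η = 0.6509…` be the number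
with `2 ^ η = 1 + 5 ^ (η - 1)` and `κ = 1 / (log 2 - (1 - 2 ^ (-η)) log 5) = 9.19…`.

(1) For both signs, all `A ≥ κ`, `0 < δ ≤ 1` and `ε > 0` and all large `x`, the number of the integers
`n` of this sign with `|n| ≤ x` and `|T₅^k (n)| ≤ |n| ^ (1 - δ)` for some `k ≤ A log |n|` is between
`x ^ (1 - δ (1 - η) - ε)` and `x ^ (1 - δ (1 - η) + ε)`.

(2) For all `A` and `δ > 0`, the integers `n` with `|T₅^k (n)| > |n| ^ (1 - δ)` for all `k ≤ A log |n|`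
have density one. -/
theorem result : ∃ η : ℝ, 0.6509 < η ∧ η < 0.65095 ∧ (2 : ℝ) ^ η = 1 + 5 ^ (η - 1) ∧
    (∀ s : ℤ, s = 1 ∨ s = -1 → ∀ A : ℝ,
      1 / (Real.log 2 - (1 - (2 : ℝ) ^ (-η)) * Real.log 5) ≤ A → ∀ δ : ℝ, 0 < δ → δ ≤ 1 →
      ∀ ε : ℝ, 0 < ε → ∃ X₀ : ℝ, ∀ x : ℝ, X₀ ≤ x →
        x ^ (1 - δ * (1 - η) - ε) ≤ ((Low s A δ x).ncard : ℝ) ∧
          ((Low s A δ x).ncard : ℝ) ≤ x ^ (1 - δ * (1 - η) + ε)) ∧
    ∀ A δ : ℝ, 0 < δ →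
      Tendsto (fun N : ℕ => ((High A δ N).ncard : ℝ) / (2 * N + 1)) atTop (𝓝 1) := by
  obtain ⟨η, h⟩ := exists_eta5
  refine ⟨η, h.1, h.2.1, h.2.2, fun s hs A hA δ hδ hδ1 ε hε => ?_, fun A δ hδ => density h hδ⟩
  obtain ⟨X₀, -, g⟩ := count h hs hA hδ hδ1 hε
  exact ⟨X₀, g⟩

end Pool.Agent.Results.MP_81cdd9_nt.HighForLogTime
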